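import Pool.Agent.Helper60.HB.Skel

set_option autoImplicit false

/-! # Module DISC: discriminant of a cubic field and discriminant of an element -/

open NumberField Module

namespace Pool.Agent.Helper35.HB

open Pool.Agent.Helper60.HB

theorem DISC_det (x1 x2 x3 : ℂ) :
    (!![1, 1, 1; x1, x2, x3; x1 ^ 2, x2 ^ 2, x3 ^ 2] : Matrix (Fin 3) (Fin 3) ℂ).det ^ 2 =
      ((x1 - x2) * (x1 - x3) * (x2 - x3)) ^ 2 := by
  rw [Matrix.det_fin_three]
  simp only [Matrix.of_apply, Matrix.cons_val', Matrix.cons_val_zero, Matrix.cons_val_one,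
    Matrix.cons_val, Matrix.cons_val_fin_one]
  ring

theorem DISC_P (K : Type) [Field K] [NumberField K] (hK : Module.finrank ℚ K = 3)
    (v : Fin 3 → 𝓞 K) : ∃ n : ℤ,
      Algebra.discr ℚ (fun i => (v i : K)) = (n : ℚ) ^ 2 * (discr K : ℚ) := by
  classical
  have hcard : Fintype.card (Free.ChooseBasisIndex ℤ (𝓞 K)) = 3 := by
    rw [← Module.finrank_eq_card_basis (integralBasis K)]
    exact hK
  let f : Free.ChooseBasisIndex ℤ (𝓞 K) ≃ Fin 3 := Fintype.equivFinOfCardEq hcard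
  let P : Matrix (Fin 3) (Fin 3) ℤ := fun i j => (RingOfIntegers.basis K).repr (v j) (f.symm i)
  refine ⟨P.det, ?_⟩
  have h1 : (fun i => (v i : K)) =
      Matrix.vecMul (((integralBasis K).reindex f : Basis (Fin 3) ℚ K) : Fin 3 → K)
        ((P.map (algebraMap ℤ ℚ)).map (algebraMap ℚ K)) := by
    funext j
    have h2 := ((integralBasis K).reindex f).sum_repr (v j : K)
    rw [← h2]
    unfold Matrix.vecMul dotProduct
    refine Finset.sum_congr rfl (fun i _ => ?_)
    have h3 : (algebraMap ℚ K) (((integralBasis K).repr (v j : K)) (f.symm i)) =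
        ((P.map (algebraMap ℤ ℚ)).map (algebraMap ℚ K)) i j :=
      congrArg (algebraMap ℚ K) (integralBasis_repr_apply K (v j) (f.symm i))
    rw [Basis.repr_reindex_apply, Algebra.smul_def, h3, mul_comm]
  rw [h1, Algebra.discr_of_matrix_vecMul, Basis.coe_reindex, Algebra.discr_reindex,
    ← NumberField.coe_discr]
  congr 2
  exact (RingHom.map_det (algebraMap ℤ ℚ) P).symm

theorem st_DISC : ST_DISC := by
  intro K _ _ hK θ s1 s2 s3 h12 h13 h23
  classical
  let v : Fin 3 → 𝓞 K := ![1, θ, θ ^ 2]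
  obtain ⟨n, hn⟩ := DISC_P K hK v
  let g : Fin 3 → (K →ₐ[ℚ] ℂ) := ![s1.toRatAlgHom, s2.toRatAlgHom, s3.toRatAlgHom]
  have hginj : Function.Injective g := by
    intro i j hij
    have hθ : g i (θ : K) = g j (θ : K) := by rw [hij]
    clear hij
    fin_cases i <;> fin_cases j <;>
      first
        | rfl
        | exact absurd hθ h12
        | exact absurd hθ h13
        | exact absurd hθ h23
        | exact absurd hθ.symm h12
        | exact absurd hθ.symm h13
        | exact absurd hθ.symm h23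
  have hg : Function.Bijective g := by
    rw [Fintype.bijective_iff_injective_and_card]
    refine ⟨hginj, ?_⟩
    rw [Fintype.card_fin, AlgHom.card ℚ K ℂ, hK]
  let e : Fin 3 ≃ (K →ₐ[ℚ] ℂ) := Equiv.ofBijective g hg
  have h1 := Algebra.discr_eq_det_embeddingsMatrixReindex_pow_two ℚ ℂ (fun i => (v i : K)) e
  have h2 : Algebra.embeddingsMatrixReindex ℚ ℂ (fun i => (v i : K)) e =
      !![1, 1, 1; s1 θ, s2 θ, s3 θ; (s1 θ) ^ 2, (s2 θ) ^ 2, (s3 θ) ^ 2] := by
    ext i j
    have h3 : Algebra.embeddingsMatrixReindex ℚ ℂ (fun i => (v i : K)) e i j = g j (v i : K) := by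
      simp [Algebra.embeddingsMatrixReindex, Algebra.embeddingsMatrix, e]
    rw [h3]
    fin_cases i <;> fin_cases j <;> simp [g, v]
  rw [h2, DISC_det, hn] at h1
  have h4 : ((n : ℝ) ^ 2 * |(discr K : ℝ)|) =
      ‖(s1 θ - s2 θ) * (s1 θ - s3 θ) * (s2 θ - s3 θ)‖ ^ 2 := by
    rw [← norm_pow, ← h1]
    have h5 : (algebraMap ℚ ℂ) ((n : ℚ) ^ 2 * (discr K : ℚ)) =
        (((n : ℝ) ^ 2 * (discr K : ℝ) : ℝ) : ℂ) := by
      simp
    rw [h5, Complex.norm_real, Real.norm_eq_abs, abs_mul, abs_of_nonneg (sq_nonneg (n : ℝ))]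
  have hne : n ≠ 0 := by
    intro h0
    rw [h0] at h4
    have h6 : ‖(s1 θ - s2 θ) * (s1 θ - s3 θ) * (s2 θ - s3 θ)‖ ^ 2 = 0 := by
      rw [← h4]
      simp
    have h7 := norm_eq_zero.1 (pow_eq_zero_iff (two_ne_zero)|>.1 h6)
    rcases mul_eq_zero.1 h7 with h8 | h8
    · rcases mul_eq_zero.1 h8 with h9 | h9
      · exact h12 (sub_eq_zero.1 h9)
      · exact h13 (sub_eq_zero.1 h9)
    · exact h23 (sub_eq_zero.1 h8)
  rw [← h4]
  have h8 : (1 : ℝ) ≤ (n : ℝ) ^ 2 := by
    have h9 : (1 : ℤ) ≤ n ^ 2 := by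
      have := sq_nonneg n
      rcases lt_or_gt_of_ne hne with h | h <;> nlinarith
    exact_mod_cast h9
  nlinarith [abs_nonneg (discr K : ℝ)]

end Pool.Agent.Helper35.HB
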