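import Pool.Agent.Helper60.HB.Skel

set_option autoImplicit false

/-! # Module INIT: coefficients of the auxiliary function from Siegel's lemma -/

open NumberField

namespace Pool.Agent.Helper35.HB

open Pool.Agent.Helper60.HB

theorem INIT_ex {n : ℕ} {K : Type} [Field K] [NumberField K] (D : BData n K) (μ : Fin n → ℤ)
    (k : ℕ) : EX D.l μ (k : ℂ) = D.σ (∏ i, D.α i ^ (μ i * (k : ℤ))) := by
  unfold EX LS
  rw [map_prod, Finset.mul_sum, Complex.exp_sum]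
  refine Finset.prod_congr rfl (fun i _ => ?_)
  rw [map_zpow₀, ← D.exp_l i, ← Complex.exp_int_mul]
  congr 1
  push_cast
  ring

theorem INIT_gc0 {n : ℕ} (b : Fin n → ℤ) (e : Fin n) (m : Fin n → ℕ) (μ : Fin n → ℤ)
    (h : m e ≠ 0) : GC b e m μ = 0 := by
  unfold GC
  refine Finset.prod_eq_zero (Finset.mem_univ e) ?_
  rw [sub_self, zero_pow h]

theorem INIT_gcb {n : ℕ} (b : Fin n → ℤ) (e : Fin n) (m : Fin n → ℕ) (μ : Fin n → ℤ) (Zc : ℝ)
    (T : ℕ) (hZ : 1 ≤ Zc) (h : ∀ r, |((b e * μ r - b r * μ e : ℤ) : ℝ)| ≤ Zc)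
    (hm : ∑ i, m i ≤ T) : |((GC b e m μ : ℤ) : ℝ)| ≤ Zc ^ T := by
  unfold GC
  rw [Int.cast_prod, Finset.abs_prod]
  calc ∏ r, |(((b e * μ r - b r * μ e) ^ m r : ℤ) : ℝ)| ≤ ∏ r, Zc ^ m r := by
        refine Finset.prod_le_prod (fun _ _ => abs_nonneg _) (fun r _ => ?_)
        rw [Int.cast_pow, abs_pow]
        exact pow_le_pow_left₀ (abs_nonneg _) (h r) _
    _ = Zc ^ (∑ r, m r) := Finset.prod_pow_eq_pow_sum _ _ _
    _ ≤ Zc ^ T := pow_le_pow_right₀ hZ hm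

theorem INIT_int {K : Type} [Field K] (q : ℕ) (x : K) (N a : ℕ)
    (h : IsIntegral ℤ ((q : K) * x)) (ha : a ≤ N) : IsIntegral ℤ ((q : K) ^ N * x ^ a) := by
  have h1 : (q : K) ^ N * x ^ a = (q : K) ^ (N - a) * ((q : K) * x) ^ a := by
    rw [mul_pow, ← mul_assoc, ← pow_add, Nat.sub_add_cancel ha]
  have h2 : IsIntegral ℤ ((q : ℕ) : K) := by
    have h3 : ((q : ℕ) : K) = algebraMap ℤ K (q : ℤ) := by simp
    rw [h3]
    exact isIntegral_algebraMap
  rw [h1]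
  exact (h2.pow _).mul (h.pow a)

theorem INIT_card {n : ℕ} (e : Fin n) (S T : ℕ) :
    (((Fintype.piFinset (fun i : Fin n => if i = e then ({0} : Finset ℕ) else Finset.range T)).filter
      (fun m => ∑ i, m i < T)) ×ˢ Finset.Icc 1 S).card ≤ S * T ^ (n - 1) := by
  rw [Finset.card_product, Nat.card_Icc, Nat.add_sub_cancel, mul_comm]
  refine Nat.mul_le_mul_left _ ((Finset.card_filter_le _ _).trans ?_)
  rw [Fintype.card_piFinset]
  have h1 : ∀ i : Fin n, (if i = e then ({0} : Finset ℕ) else Finset.range T).card =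
      if i = e then 1 else T := by
    intro i
    split_ifs
    · rfl
    · exact Finset.card_range T
  rw [Finset.prod_congr rfl (fun i _ => h1 i), Finset.prod_ite, Finset.prod_const_one, one_mul,
    Finset.prod_const, Finset.filter_ne' Finset.univ e, Finset.card_erase_of_mem (Finset.mem_univ e),
    Finset.card_univ, Fintype.card_fin]

theorem INIT_box {n : ℕ} (L : Fin n → ℕ) (μ : Fin n → ℤ) (h : μ ∈ BX L) (i : Fin n) :
    ∃ a : ℕ, μ i = (a : ℤ) ∧ a ≤ L i := by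
  unfold BX at h
  have h1 := Fintype.mem_piFinset.1 h i
  rw [Finset.mem_Icc] at h1
  refine ⟨(μ i).toNat, ?_, ?_⟩
  · rw [Int.toNat_of_nonneg h1.1]
  · have := h1.2
    omega

theorem INIT_size {n : ℕ} {K : Type} [Field K] [NumberField K] (D : BData n K)
    (L : Fin n → ℕ) (S : ℕ) (Lr : ℝ) (hL : ∀ i, (L i : ℝ) * D.A i ≤ Lr)
    (q : Fin n → ℕ) (hq1 : ∀ i, 1 ≤ q i)
    (hq : ∀ i, Real.log (q i) ≤ 2 * Height.logHeight₁ (D.α i))
    (hs : ∀ i (τ : K →+* ℂ), |Real.log ‖τ (D.α i)‖| ≤ Height.logHeight₁ (D.α i))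
    (a : Fin n → ℕ) (k : ℕ) (hk : k ≤ S) (ha : ∀ i, a i ≤ L i) (τ : K →+* ℂ) :
    ‖τ (∏ i, (((q i : ℕ) : K) ^ (L i * S) * D.α i ^ (a i * k)))‖ ≤
      Real.exp (3 * n * Lr * S) := by
  rw [map_prod, norm_prod]
  have h1 : ∀ i, ‖τ (((q i : ℕ) : K) ^ (L i * S) * D.α i ^ (a i * k))‖ ≤
      Real.exp (3 * Lr * S) := by
    intro i
    rw [map_mul, map_pow, map_pow, map_natCast, norm_mul, norm_pow, norm_pow]
    have hA := D.h_le i
    have hA1 := D.one_le_A i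
    have hτ : 0 < ‖τ (D.α i)‖ := norm_pos_iff.2 ((map_ne_zero τ).2 (D.α_ne i))
    have h2 : ‖τ (D.α i)‖ ≤ Real.exp (D.A i) := by
      rw [← Real.log_le_iff_le_exp hτ]
      exact (le_abs_self _).trans ((hs i τ).trans hA)
    have hqp : (0 : ℝ) < (q i : ℝ) := by
      have := hq1 i
      positivity
    have h3 : ‖((q i : ℕ) : ℂ)‖ ≤ Real.exp (2 * D.A i) := by
      rw [Complex.norm_natCast, ← Real.log_le_iff_le_exp hqp]
      linarith [hq i]
    have h4 : (a i * k : ℕ) ≤ L i * S := Nat.mul_le_mul (ha i) hk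
    calc ‖((q i : ℕ) : ℂ)‖ ^ (L i * S) * ‖τ (D.α i)‖ ^ (a i * k)
        ≤ Real.exp (2 * D.A i) ^ (L i * S) * Real.exp (D.A i) ^ (a i * k) :=
          mul_le_mul (pow_le_pow_left₀ (norm_nonneg _) h3 _)
            (pow_le_pow_left₀ hτ.le h2 _) (pow_nonneg hτ.le _) (pow_nonneg (Real.exp_pos _).le _)
      _ ≤ Real.exp (2 * D.A i) ^ (L i * S) * Real.exp (D.A i) ^ (L i * S) := by
          refine mul_le_mul_of_nonneg_left ?_ (pow_nonneg (Real.exp_pos _).le _)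
          exact pow_le_pow_right₀ (Real.one_le_exp (by linarith)) h4
      _ = Real.exp (3 * (L i * D.A i) * S) := by
          rw [← Real.exp_nat_mul, ← Real.exp_nat_mul, ← Real.exp_add]
          congr 1
          push_cast
          ring
      _ ≤ Real.exp (3 * Lr * S) := by
          refine Real.exp_le_exp.2 ?_
          have hS : (0 : ℝ) ≤ (S : ℝ) := Nat.cast_nonneg _
          exact mul_le_mul_of_nonneg_right (by linarith [hL i]) hS
  calc ∏ i, ‖τ (((q i : ℕ) : K) ^ (L i * S) * D.α i ^ (a i * k))‖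
      ≤ ∏ _i : Fin n, Real.exp (3 * Lr * S) :=
        Finset.prod_le_prod (fun _ _ => norm_nonneg _) (fun i _ => h1 i)
    _ = Real.exp (3 * n * Lr * S) := by
        rw [Finset.prod_const, Finset.card_univ, Fintype.card_fin, ← Real.exp_nat_mul]
        congr 1
        ring

theorem st_INIT (hSIEG : ST_SIEG) (hHB : ST_HB) : ST_INIT := by
  intro n K _ _ D b e L S T Zc Lr hL hZB hS hT hcard
  have hZ := hZB.1
  have hLr : 0 ≤ Lr := by
    have h1 := hL e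
    have h2 := D.one_le_A e
    have h3 : (0 : ℝ) ≤ (L e : ℝ) * D.A e := by positivity
    linarith
  have hq : ∀ i, ∃ q : ℕ, 1 ≤ q ∧ Real.log q ≤ 2 * Height.logHeight₁ (D.α i) ∧
      IsIntegral ℤ ((q : K) * D.α i) := by
    intro i
    obtain ⟨_, q, h1, h2, h3, _⟩ := hHB K (D.α i) (D.α_ne i)
    exact ⟨q, h1, h2, h3⟩
  choose q hq1 hq2 hq3 using hq
  have hs : ∀ i (τ : K →+* ℂ), |Real.log ‖τ (D.α i)‖| ≤ Height.logHeight₁ (D.α i) :=
    fun i => (hHB K (D.α i) (D.α_ne i)).1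
  set Q : ℕ := ∏ i, q i ^ (L i * S) with hQ
  set V : ℝ := Zc ^ T * Real.exp (3 * n * Lr * S) with hV
  set E : Finset ((Fin n → ℕ) × ℕ) :=
    ((Fintype.piFinset (fun i : Fin n => if i = e then ({0} : Finset ℕ) else Finset.range T)).filter
      (fun m => ∑ i, m i < T)) ×ˢ Finset.Icc 1 S with hE
  set y : (Fin n → ℕ) × ℕ → (Fin n → ℤ) → K := fun mk μ =>
    ((GC b e mk.1 μ : ℤ) : K) * ∏ i, D.α i ^ (μ i * (mk.2 : ℤ)) with hy
  have hQ1 : 1 ≤ Q := by
    rw [hQ]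
    exact Finset.one_le_prod' (fun i _ => Nat.one_le_pow _ _ (hq1 i))
  have hV1 : 1 ≤ V := by
    rw [hV]
    refine one_le_mul_of_one_le_of_one_le (one_le_pow₀ hZ) (Real.one_le_exp ?_)
    positivity
  have hyeq : ∀ mk ∈ E, ∀ μ ∈ BX L, ∃ a : Fin n → ℕ, (∀ i, a i ≤ L i) ∧ mk.2 ≤ S ∧
      (∑ i, mk.1 i) ≤ T ∧
      ((Q : ℕ) : K) * y mk μ = ((GC b e mk.1 μ : ℤ) : K) *
        ∏ i, (((q i : ℕ) : K) ^ (L i * S) * D.α i ^ (a i * mk.2)) := by
    intro mk hmk μ hμ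
    rw [hE, Finset.mem_product, Finset.mem_filter, Finset.mem_Icc] at hmk
    choose a ha1 ha2 using INIT_box L μ hμ
    refine ⟨a, ha2, hmk.2.2, hmk.1.2.le, ?_⟩
    rw [hy, hQ]
    simp only []
    rw [Finset.prod_mul_distrib, Nat.cast_prod]
    have h1 : ∏ i, D.α i ^ (μ i * (mk.2 : ℤ)) = ∏ i, D.α i ^ (a i * mk.2) := by
      refine Finset.prod_congr rfl (fun i _ => ?_)
      rw [ha1 i, ← Nat.cast_mul, zpow_natCast]
    rw [h1]
    have h2 : ∏ i, ((q i ^ (L i * S) : ℕ) : K) = ∏ i, ((q i : ℕ) : K) ^ (L i * S) :=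
      Finset.prod_congr rfl (fun i _ => by rw [Nat.cast_pow])
    rw [h2]
    ring
  have hint : ∀ mk ∈ E, ∀ μ ∈ BX L, IsIntegral ℤ (((Q : ℕ) : K) * y mk μ) := by
    intro mk hmk μ hμ
    obtain ⟨a, ha1, ha2, ha3, ha4⟩ := hyeq mk hmk μ hμ
    rw [ha4]
    refine IsIntegral.mul ?_ ?_
    · have h3 : ((GC b e mk.1 μ : ℤ) : K) = algebraMap ℤ K (GC b e mk.1 μ) := by simp
      rw [h3]
      exact isIntegral_algebraMap
    · refine IsIntegral.prod _ (fun i _ => ?_)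
      exact INIT_int (q i) (D.α i) (L i * S) (a i * mk.2) (hq3 i) (Nat.mul_le_mul (ha1 i) ha2)
  have hsize : ∀ mk ∈ E, ∀ μ ∈ BX L, ∀ τ : K →+* ℂ, ‖τ (((Q : ℕ) : K) * y mk μ)‖ ≤ V := by
    intro mk hmk μ hμ τ
    obtain ⟨a, ha1, ha2, ha3, ha4⟩ := hyeq mk hmk μ hμ
    rw [ha4, map_mul, norm_mul, map_intCast]
    have h1 : ‖((GC b e mk.1 μ : ℤ) : ℂ)‖ ≤ Zc ^ T := by
      rw [Complex.norm_intCast]
      exact INIT_gcb b e mk.1 μ Zc T hZ (hZB.2 μ hμ).1 ha3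
    exact mul_le_mul h1 (INIT_size D L S Lr hL q hq1 hq2 hs a mk.2 ha2 ha1 τ) (norm_nonneg _)
      (by positivity)
  have hEc : 4 * Module.finrank ℚ K * E.card ≤ (BX L).card :=
    (Nat.mul_le_mul_left _ (INIT_card e S T)).trans hcard
  have hpos : 0 < (BX L).card := by
    refine Finset.card_pos.2 ⟨fun _ => 0, ?_⟩
    unfold BX
    rw [Fintype.mem_piFinset]
    intro i
    rw [Finset.mem_Icc]
    exact ⟨le_refl _, Int.natCast_nonneg _⟩
  obtain ⟨p, hp1, hp2, hp3⟩ := hSIEG K (Fin n → ℤ) ((Fin n → ℕ) × ℕ) (BX L) E y Q V hQ1 hV1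
    hint hsize hEc hpos
  refine ⟨p, hp1, hp2, ?_⟩
  intro m hm k hk hkS
  by_cases hme : m e = 0
  · have hkE : (m, k) ∈ E := by
      rw [hE, Finset.mem_product, Finset.mem_filter, Finset.mem_Icc, Fintype.mem_piFinset]
      refine ⟨⟨fun i => ?_, hm⟩, hk.pos, hkS⟩
      by_cases hi : i = e
      · subst hi
        simp only [if_true, Finset.mem_singleton]
        exact hme
      · simp only [hi, if_false, Finset.mem_range]
        exact lt_of_le_of_lt (Finset.single_le_sum (fun j _ => Nat.zero_le (m j))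
          (Finset.mem_univ i)) hm
    have h1 := hp3 (m, k) hkE
    unfold PH
    have h2 : ∑ μ ∈ BX L, ((p μ * GC b e m μ : ℤ) : ℂ) * EX D.l μ (k : ℂ) =
        D.σ (∑ μ ∈ BX L, (p μ : K) * y (m, k) μ) := by
      rw [map_sum]
      refine Finset.sum_congr rfl (fun μ _ => ?_)
      rw [INIT_ex, hy, map_mul, map_mul, map_intCast, map_intCast, Int.cast_mul, mul_assoc]
    rw [h2, h1, map_zero]
  · unfold PH
    refine Finset.sum_eq_zero (fun μ _ => ?_)
    rw [INIT_gc0 b e m μ hme, mul_zero, Int.cast_zero, zero_mul]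

end Pool.Agent.Helper35.HB
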